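import Pool.Agent.Helper72.RA.Defs2

set_option autoImplicit false

/-!
# MP_717de3_co: module RCOUNT
-/

namespace Pool.Agent.Helper72.RA

open Real Finset MeasureTheory Filter

open scoped Classical

theorem st_RCOUNT (hLEV : ST_LEV) : ST_RCOUNT := by
  filter_upwards [hLEV] with q hL
  intro m hm1 hm2 D
  obtain ⟨hq9, -, -, hu0, hUU, -, -, hPl, -, -, -, -, hsum, -⟩ := hL
  have hq9' : (10 : ℝ) ^ 9 ≤ (q : ℝ) := by exact_mod_cast hq9
  have hm1' : (q : ℝ) ^ 1000 ≤ (m : ℝ) := by exact_mod_cast hm1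
  set Q : ℝ := (q : ℝ) with hQ
  set M : ℝ := (m : ℝ) with hM
  have hQ1 : (1 : ℝ) ≤ Q := by linarith
  have hQ0 : (0 : ℝ) < Q := by linarith
  have hMQ : Q ^ 2 ≤ M := (pow_le_pow_right₀ hQ1 (by norm_num)).trans hm1'
  have hM0 : (0 : ℝ) < M := lt_of_lt_of_le (by positivity) hMQ
  have hMbig : (10 : ℝ) ^ 9 ≤ M := by nlinarith
  -- low vertices
  set Lg : Finset D.K := univ.filter fun k => D.ty k = Ty.g ∧ D.lev k < u0 q with hLg
  have hLgc : (Lg.card : ℝ) ≤ M * (2 / 3 * (Q ^ 8)⁻¹) + Q := by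
    have h1 : Lg ⊆ (range (u0 q)).biUnion fun u =>
        univ.filter fun k : D.K => D.ty k = Ty.g ∧ D.lev k = u := by
      intro k hk
      rw [hLg, mem_filter] at hk
      rw [mem_biUnion]
      exact ⟨D.lev k, mem_range.mpr hk.2.2, by simp [hk.2.1]⟩
    have h2 : (Lg.card : ℝ) ≤ ∑ u ∈ range (u0 q),
        ((univ.filter fun k : D.K => D.ty k = Ty.g ∧ D.lev k = u).card : ℝ) := by
      have := (card_le_card h1).trans card_biUnion_le
      exact_mod_cast this
    have h3 : ∀ u ∈ range (u0 q),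
        ((univ.filter fun k : D.K => D.ty k = Ty.g ∧ D.lev k = u).card : ℝ) ≤
          Q * M * ((Pl q u : ℝ))⁻¹ + 1 := by
      intro u hu
      have := D.card_g2 u ((mem_range.mp hu).le.trans hu0)
      rw [div_eq_mul_inv] at this
      exact this
    have h4 : ∑ u ∈ range (u0 q), (Q * M * ((Pl q u : ℝ))⁻¹ + 1) ≤
        Q * M * (2 / 3 * qi q 9) + Q := by
      rw [sum_add_distrib, ← mul_sum]
      have h5 : ∑ u ∈ range (u0 q), ((Pl q u : ℝ))⁻¹ ≤ 2 / 3 * qi q 9 := by
        refine le_trans ?_ hsum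
        apply sum_le_sum_of_subset_of_nonneg
        · apply range_subset_range.mpr
          omega
        · intro i _ _
          positivity
      have h6 : ∑ _u ∈ range (u0 q), (1 : ℝ) ≤ Q := by
        rw [sum_const, card_range, nsmul_eq_mul, mul_one, hQ]
        have : u0 q ≤ q := by omega
        exact_mod_cast this
      gcongr
    have h7 : Q * M * (2 / 3 * qi q 9) = M * (2 / 3 * (Q ^ 8)⁻¹) := by
      unfold qi
      rw [← hQ]
      field_simp
    calc (Lg.card : ℝ) ≤ _ := h2
      _ ≤ _ := sum_le_sum h3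
      _ ≤ _ := h4
      _ = _ := by rw [h7]
  -- cover
  have hcov : (univ.filter fun e : Sym2 D.K => ∃ i k, e = s(i, k) ∧ i ≠ k ∧ restr D i k) ⊆
      ((range 3).biUnion fun a =>
        (univ.filter fun k : D.K => D.ty k = Ty.v ∧ D.lev k = a).sym2) ∪
      (Lg ×ˢ (univ : Finset D.K)).image fun x => s(x.1, x.2) := by
    intro e he
    rw [mem_filter] at he
    obtain ⟨-, i, k, rfl, hik, hi, hk, hn⟩ := he
    rw [mem_union]
    by_cases h1 : D.ty i = Ty.v ∧ D.ty k = Ty.v
    · left
      rw [mem_biUnion]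
      refine ⟨D.lev i, mem_range.mpr (D.lev_v i h1.1), ?_⟩
      rw [Finset.mk_mem_sym2_iff]
      have h2 : D.lev i = D.lev k := by
        by_contra h3
        exact hn ⟨h1.1, h1.2, h3⟩
      simp [h1.1, h1.2, h2]
    · right
      rw [mem_image]
      by_cases h2 : D.ty i = Ty.v
      · have h3 : k ∈ Lg := by
          rw [hLg, mem_filter]
          refine ⟨mem_univ _, ?_⟩
          rcases hk with hk | hk
          · exact absurd ⟨h2, hk⟩ h1
          · exact hk
        exact ⟨(k, i), by simp [h3], Sym2.eq_swap⟩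
      · have h3 : i ∈ Lg := by
          rw [hLg, mem_filter]
          refine ⟨mem_univ _, ?_⟩
          rcases hi with hi | hi
          · exact absurd hi h2
          · exact hi
        exact ⟨(i, k), by simp [h3], rfl⟩
  have hV : ∀ a ∈ range 3,
      (((univ.filter fun k : D.K => D.ty k = Ty.v ∧ D.lev k = a).sym2.card : ℕ) : ℝ) ≤
        (M / 3 + 1) * (M / 3 + 2) / 2 := by
    intro a ha
    rw [Finset.card_sym2]
    have h1 := D.card_v a (mem_range.mp ha)
    set c := (univ.filter fun k : D.K => D.ty k = Ty.v ∧ D.lev k = a).card with hc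
    rw [Nat.cast_choose_two]
    push_cast
    have h2 : (0 : ℝ) ≤ (c : ℝ) := by positivity
    have h3 : ((c : ℝ) + 1) * ((c : ℝ) + 1 - 1) ≤ (M / 3 + 1) * (M / 3 + 2) := by
      have e1 : (c : ℝ) + 1 - 1 = c := by ring
      rw [e1]
      have h1' : (c : ℝ) ≤ M / 3 + 1 := h1
      nlinarith
    linarith
  have hcard : (Fintype.card D.K : ℝ) ≤ M := by
    have := D.card_K
    have h1 : Fintype.card D.K = m - 2 := this
    rw [h1, hM]
    have : m - 2 ≤ m := Nat.sub_le _ _
    exact_mod_cast this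
  have h1 := card_le_card hcov
  have h2 : ((univ.filter fun e : Sym2 D.K => ∃ i k, e = s(i, k) ∧ i ≠ k ∧ restr D i k).card : ℝ)
      ≤ 3 * ((M / 3 + 1) * (M / 3 + 2) / 2) + (Lg.card : ℝ) * M := by
    calc ((univ.filter fun e : Sym2 D.K => ∃ i k, e = s(i, k) ∧ i ≠ k ∧ restr D i k).card : ℝ)
        ≤ ((((range 3).biUnion fun a =>
        (univ.filter fun k : D.K => D.ty k = Ty.v ∧ D.lev k = a).sym2) ∪
        (Lg ×ˢ (univ : Finset D.K)).image fun x => s(x.1, x.2)).card : ℝ) := by
          exact_mod_cast h1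
      _ ≤ (((range 3).biUnion fun a =>
          (univ.filter fun k : D.K => D.ty k = Ty.v ∧ D.lev k = a).sym2).card : ℝ) +
          (((Lg ×ˢ (univ : Finset D.K)).image fun x => s(x.1, x.2)).card : ℝ) := by
          exact_mod_cast card_union_le _ _
      _ ≤ 3 * ((M / 3 + 1) * (M / 3 + 2) / 2) + (Lg.card : ℝ) * M := by
          apply add_le_add
          · calc (((range 3).biUnion fun a =>
                (univ.filter fun k : D.K => D.ty k = Ty.v ∧ D.lev k = a).sym2).card : ℝ)
                ≤ ∑ a ∈ range 3, (((univ.filter fun k : D.K =>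
                  D.ty k = Ty.v ∧ D.lev k = a).sym2.card : ℕ) : ℝ) := by
                  exact_mod_cast card_biUnion_le
              _ ≤ ∑ a ∈ range 3, ((M / 3 + 1) * (M / 3 + 2) / 2) := sum_le_sum hV
              _ = _ := by simp
          · have h3 : (((Lg ×ˢ (univ : Finset D.K)).image fun x => s(x.1, x.2)).card : ℝ) ≤
                (Lg.card : ℝ) * (Fintype.card D.K : ℝ) := by
              have := card_image_le (s := Lg ×ˢ (univ : Finset D.K)) (f := fun x => s(x.1, x.2))
              rw [card_product, card_univ] at this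
              exact_mod_cast this
            refine h3.trans ?_
            gcongr
  have h8 : (Q ^ 8)⁻¹ ≤ 1 / 10 ^ 9 := by
    rw [inv_eq_one_div]
    apply one_div_le_one_div_of_le (by norm_num)
    calc (10 : ℝ) ^ 9 ≤ Q := hq9'
      _ = Q ^ 1 := (pow_one _).symm
      _ ≤ Q ^ 8 := pow_le_pow_right₀ hQ1 (by norm_num)
  have hQM : Q ≤ M / 10 ^ 9 := by
    rw [le_div_iff₀ (by norm_num)]
    nlinarith
  have h9 : (Lg.card : ℝ) ≤ M / 10 ^ 8 := by
    have : M * (2 / 3 * (Q ^ 8)⁻¹) ≤ M * (2 / 3 * (1 / 10 ^ 9)) := by gcongr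
    linarith
  have h10 : (Lg.card : ℝ) * M ≤ M / 10 ^ 8 * M := by gcongr
  nlinarith

end Pool.Agent.Helper72.RA
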