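import Pool.Agent.Helper72.RA.Defs2

set_option autoImplicit false

/-!
# MP_717de3_co: module VSEP1
-/

namespace Pool.Agent.Helper72.RA

open Real Finset MeasureTheory Filter

open scoped Classical

/-- lower bound for differences of arctangents -/
private theorem vsep1_arctan {x y : ℝ} (hy : 0 ≤ y) (hxy : y ≤ x) :
    1 / (1 + x ^ 2) * (x - y) ≤ arctan x - arctan y := by
  have h := Convex.mul_sub_le_image_sub_of_le_deriv (convex_Icc (0 : ℝ) x)
    (f := arctan) continuous_arctan.continuousOn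
    (differentiable_arctan.differentiableOn) (C := 1 / (1 + x ^ 2)) ?_ y ⟨hy, hxy⟩ x
    ⟨hy.trans hxy, le_refl _⟩ hxy
  · exact h
  · intro t ht
    rw [interior_Icc] at ht
    rw [Real.deriv_arctan]
    have h1 : t ^ 2 ≤ x ^ 2 := by
      have := ht.1
      have := ht.2
      nlinarith
    exact one_div_le_one_div_of_le (by positivity) (by linarith)

/-- separation of the angles for a common position -/
private theorem vsep1_sep {p r r' R δ : ℝ} (hp : 0 < p) (hr : 0 ≤ r) (hr' : 0 ≤ r')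
    (hR : r ≤ R) (hR' : r' ≤ R) (h : δ ≤ |r - r'|) :
    δ * (p / (p ^ 2 + R ^ 2)) ≤ |arctan (r / p) - arctan (r' / p)| := by
  have key : ∀ a b : ℝ, 0 ≤ a → a ≤ b → b ≤ R → δ ≤ b - a →
      δ * (p / (p ^ 2 + R ^ 2)) ≤ arctan (b / p) - arctan (a / p) := by
    intro a b ha hab hb hd
    have h1 := vsep1_arctan (x := b / p) (y := a / p) (by positivity) (by gcongr)
    refine le_trans ?_ h1
    have h2 : 1 / (1 + (b / p) ^ 2) * (b / p - a / p) = (b - a) * (p / (p ^ 2 + b ^ 2)) := by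
      field_simp
    rw [h2]
    have hb0 : 0 ≤ b := ha.trans hab
    have h3 : p / (p ^ 2 + R ^ 2) ≤ p / (p ^ 2 + b ^ 2) := by gcongr
    have h4 : 0 ≤ p / (p ^ 2 + R ^ 2) := by positivity
    calc δ * (p / (p ^ 2 + R ^ 2)) ≤ (b - a) * (p / (p ^ 2 + R ^ 2)) := by gcongr
      _ ≤ (b - a) * (p / (p ^ 2 + b ^ 2)) := by
        have : 0 ≤ b - a := by linarith
        gcongr
  rcases le_total r r' with hrr | hrr
  · have h5 : |r - r'| = r' - r := by
      rw [abs_of_nonpos (by linarith)]; ring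
    rw [h5] at h
    have h6 := key r r' hr hrr hR' h
    rw [abs_sub_comm]
    exact h6.trans (le_abs_self _)
  · have h5 : |r - r'| = r - r' := abs_of_nonneg (by linarith)
    rw [h5] at h
    exact (key r' r hr' hrr hR h).trans (le_abs_self _)

private theorem vsep1_nat {i j : ℕ} (h : i ≠ j) : (1 : ℝ) ≤ |(i : ℝ) - (j : ℝ)| := by
  have h1 : (1 : ℤ) ≤ |(i : ℤ) - (j : ℤ)| := by
    apply Int.one_le_abs
    omega
  exact_mod_cast h1

private theorem vsep1_hb {n a b : ℕ} (ha : a < n) (hb : b < n) : a * n + b < n * n := by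
  nlinarith

private theorem vsep1_kind {q m : ℕ} {k k' : Vx q m} (h : vcls k = vcls k') :
    vty k = vty k' := by
  rcases k with _ | _ | i | i | ⟨a, b, l⟩ | ⟨u, i⟩ | ⟨a, i⟩ <;>
  rcases k' with _ | _ | i' | i' | ⟨a', b', l'⟩ | ⟨u', i'⟩ | ⟨a', i'⟩ <;>
  first
  | rfl
  | (exfalso
     simp only [vcls] at h
     try have h1 := vsep1_hb a.2 b.2
     try have h2 := vsep1_hb a'.2 b'.2
     try have h3 := u.2
     try have h4 := u'.2
     omega)

/-- unique representation of a pair of digits -/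
private theorem vsep1_dig {n a b a' b' : ℕ} (hb : b < n) (hb' : b' < n)
    (h : a * n + b = a' * n + b') : a = a' ∧ b = b' := by
  have h1 : a = a' := by
    have h2 : (a * n + b) / n = a := by
      rw [mul_comm, Nat.mul_add_div (by omega), Nat.div_eq_of_lt hb, add_zero]
    have h3 : (a' * n + b') / n = a' := by
      rw [mul_comm, Nat.mul_add_div (by omega), Nat.div_eq_of_lt hb', add_zero]
    rw [← h2, ← h3, h]
  subst h1
  exact ⟨rfl, by omega⟩

private theorem vsep1_x {q m : ℕ} {i i' : ℕ} (hQ : (20 : ℝ) ≤ (q : ℝ))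
    (hMQ : (q : ℝ) ^ 1011 ≤ (m : ℝ) * (q : ℝ) ^ 11) (hne : i ≠ i') (hi : i < nX q)
    (hi' : i' < nX q) :
    ((m : ℝ) * (q : ℝ) ^ 11)⁻¹ ≤ |arctan ((55 / 100 + (i : ℝ) / (q : ℝ) ^ 655) / 1) -
      arctan ((55 / 100 + (i' : ℝ) / (q : ℝ) ^ 655) / 1)| := by
  have hQ1 : (1 : ℝ) ≤ (q : ℝ) := by linarith
  have hQ0 : (0 : ℝ) < (q : ℝ) := by linarith
  have hr : ∀ i : ℕ, i < nX q → (i : ℝ) / (q : ℝ) ^ 655 ≤ 1 := by
    intro i hi
    rw [div_le_one (by positivity)]
    unfold nX at hi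
    exact_mod_cast hi.le
  have h1 := vsep1_sep (p := 1) (r := 55 / 100 + (i : ℝ) / (q : ℝ) ^ 655)
    (r' := 55 / 100 + (i' : ℝ) / (q : ℝ) ^ 655) (R := 155 / 100) (δ := ((q : ℝ) ^ 655)⁻¹)
    (by norm_num) (by positivity) (by positivity) (by linarith [hr _ hi])
    (by linarith [hr _ hi'])
    (by
      rw [show 55 / 100 + (i : ℝ) / (q : ℝ) ^ 655 - (55 / 100 + (i' : ℝ) / (q : ℝ) ^ 655) =
        ((i : ℝ) - (i' : ℝ)) * ((q : ℝ) ^ 655)⁻¹ by ring, abs_mul,
        abs_of_pos (a := ((q : ℝ) ^ 655)⁻¹) (by positivity)]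
      exact le_mul_of_one_le_left (by positivity) (vsep1_nat hne))
  refine le_trans ?_ h1
  calc ((m : ℝ) * (q : ℝ) ^ 11)⁻¹ ≤ ((q : ℝ) ^ 1011)⁻¹ := by gcongr
    _ ≤ ((q : ℝ) ^ 656)⁻¹ := by
      gcongr
      norm_num
    _ = ((q : ℝ) ^ 655)⁻¹ * ((q : ℝ))⁻¹ := by rw [← mul_inv, ← pow_succ]
    _ ≤ _ := by
      gcongr
      rw [inv_eq_one_div, div_le_div_iff₀ (by positivity) (by norm_num)]
      norm_num
      linarith

theorem st_VSEP1 (hLEV : ST_LEV) (hVC : ST_VCARD) : ST_VSEP1 := by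
  filter_upwards [hLEV, hVC] with q hL hC
  intro m hm1 hm2 k k' hkk hks hks' hc
  obtain ⟨hq9, hlow, -⟩ := hL
  obtain ⟨-, -, -, -, -, -, -, hMv⟩ := hC m hm1 hm2
  have hq9' : (10 : ℝ) ^ 9 ≤ (q : ℝ) := by exact_mod_cast hq9
  have hm1' : (q : ℝ) ^ 1000 ≤ (m : ℝ) := by exact_mod_cast hm1
  set Q : ℝ := (q : ℝ) with hQ
  set M : ℝ := (m : ℝ) with hM
  have hQ1 : (1 : ℝ) ≤ Q := by linarith
  have hQ0 : (0 : ℝ) < Q := by linarith
  have hQ1' : (20 : ℝ) ≤ Q := by linarith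
  have hM0 : (0 : ℝ) < M := lt_of_lt_of_le (by positivity) hm1'
  have hMQ : Q ^ 1011 ≤ M * Q ^ 11 := by
    calc Q ^ 1011 = Q ^ 1000 * Q ^ 11 := by rw [← pow_add]
      _ ≤ M * Q ^ 11 := by gcongr
  have hty := vsep1_kind hc
  rcases k with _ | _ | i | i | ⟨a, b, l⟩ | ⟨u, i⟩ | ⟨a, i⟩ <;>
  rcases k' with _ | _ | i' | i' | ⟨a', b', l'⟩ | ⟨u', i'⟩ | ⟨a', i'⟩ <;>
  first
  | (exact absurd rfl hks)
  | (exact absurd rfl hks')
  | (exact absurd rfl hkk)
  | (exfalso; simp [vty] at hty; done)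
  | skip
  · -- xp
    have hne : (i : ℕ) ≠ (i' : ℕ) := fun h => hkk (by rw [Fin.ext h])
    exact vsep1_x hQ1' hMQ hne i.2 i'.2
  · -- x0
    have hne : (i : ℕ) ≠ (i' : ℕ) := fun h => hkk (by rw [Fin.ext h])
    exact vsep1_x hQ1' hMQ hne i.2 i'.2
  · -- h
    have hab : (a : ℕ) = a' ∧ (b : ℕ) = b' := by
      simp only [vcls] at hc
      exact vsep1_dig b.2 b'.2 (by omega)
    obtain rfl : a = a' := Fin.ext hab.1
    obtain rfl : b = b' := Fin.ext hab.2
    have hne : (l : ℕ) ≠ (l' : ℕ) := fun h => hkk (by rw [Fin.ext h])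
    have hpc : ∀ c : Fin (nF q), 1 ≤ posC q c ∧ posC q c ≤ 4 * Q ^ 20 := by
      intro c
      have h20 : Q ^ 10 ≤ Q ^ 20 := pow_le_pow_right₀ hQ1 (by norm_num)
      have h10 : 1 ≤ Q ^ 10 := one_le_pow₀ hQ1
      unfold posC
      split_ifs with h
      · have h2 : ((c : ℕ) : ℝ) ≤ 2 := by
          have : (c : ℕ) ≤ 2 := by omega
          exact_mod_cast this
        constructor
        · have : 0 ≤ ((c : ℕ) : ℝ) * Q ^ 10 := by positivity
          linarith
        · have : ((c : ℕ) : ℝ) * Q ^ 10 ≤ 2 * Q ^ 10 := by gcongr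
          linarith
      · have h3 : ((c : ℕ) - 3) < u0 q := by
          have := c.2
          unfold nF at this
          omega
        have h4 := hlow _ h3
        have h5 : (0 : ℝ) ≤ (Pl q ((c : ℕ) - 3) : ℝ) := by positivity
        constructor
        · linarith
        · linarith
    have ha := hpc a
    have hb := hpc b
    have hp1 : 1 ≤ (posC q a + posC q b) / 2 := by linarith [ha.1, hb.1]
    have hp2 : (posC q a + posC q b) / 2 ≤ 4 * Q ^ 20 := by linarith [ha.2, hb.2]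
    have hr : ∀ l : Fin (LH q + 1), ((l : ℕ) : ℝ) * (Q ^ 800)⁻¹ ≤ Q ^ 22 := by
      intro l
      have h1 : (l : ℕ) ≤ LH q := by have := l.2; omega
      have h2 : ((l : ℕ) : ℝ) ≤ Q ^ 822 := by
        unfold LH at h1
        rw [hQ]
        exact_mod_cast h1
      rw [mul_inv_le_iff₀ (by positivity), ← pow_add]
      exact h2
    have h1 := vsep1_sep (p := (posC q a + posC q b) / 2) (r := 1 / 2 + ((l : ℕ) : ℝ) * (Q ^ 800)⁻¹)
      (r' := 1 / 2 + ((l' : ℕ) : ℝ) * (Q ^ 800)⁻¹) (R := 1 + Q ^ 22) (δ := (Q ^ 800)⁻¹)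
      (by linarith) (by positivity) (by positivity) (by linarith [hr l]) (by linarith [hr l'])
      (by
        rw [show 1 / 2 + ((l : ℕ) : ℝ) * (Q ^ 800)⁻¹ - (1 / 2 + ((l' : ℕ) : ℝ) * (Q ^ 800)⁻¹) =
          (((l : ℕ) : ℝ) - ((l' : ℕ) : ℝ)) * (Q ^ 800)⁻¹ by ring, abs_mul,
          abs_of_pos (a := (Q ^ 800)⁻¹) (by positivity)]
        exact le_mul_of_one_le_left (by positivity) (vsep1_nat hne))
    refine le_trans ?_ h1
    set p := (posC q a + posC q b) / 2 with hp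
    have h2 : p ^ 2 + (1 + Q ^ 22) ^ 2 ≤ Q ^ 50 := by
      have e1 : p ^ 2 ≤ (4 * Q ^ 20) ^ 2 := by gcongr
      have e2 : Q ^ 40 ≤ Q ^ 44 := pow_le_pow_right₀ hQ1 (by norm_num)
      have e3 : (1 : ℝ) ≤ Q ^ 22 := one_le_pow₀ hQ1
      have e4 : (1 + Q ^ 22) ^ 2 ≤ (2 * Q ^ 22) ^ 2 := by
        gcongr
        linarith
      have e5 : (20 : ℝ) ≤ Q ^ 6 := by
        calc (20 : ℝ) ≤ Q := by linarith
          _ = Q ^ 1 := (pow_one _).symm
          _ ≤ Q ^ 6 := pow_le_pow_right₀ hQ1 (by norm_num)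
      have e6 : Q ^ 50 = Q ^ 6 * Q ^ 44 := by rw [← pow_add]
      have e7 : 20 * Q ^ 44 ≤ Q ^ 6 * Q ^ 44 := by gcongr
      have e8 : (4 * Q ^ 20) ^ 2 = 16 * Q ^ 40 := by ring
      have e9 : (2 * Q ^ 22) ^ 2 = 4 * Q ^ 44 := by ring
      linarith
    have h3 : (Q ^ 50)⁻¹ ≤ p / (p ^ 2 + (1 + Q ^ 22) ^ 2) := by
      rw [inv_eq_one_div]
      gcongr
    calc (M * Q ^ 11)⁻¹ ≤ (Q ^ 1011)⁻¹ := by gcongr
      _ ≤ (Q ^ 850)⁻¹ := by
        gcongr
        norm_num
      _ = (Q ^ 800)⁻¹ * (Q ^ 50)⁻¹ := by rw [← mul_inv, ← pow_add]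
      _ ≤ _ := by gcongr
  · -- g
    have hu : (u : ℕ) = u' := by
      simp only [vcls] at hc
      omega
    obtain rfl : u = u' := Fin.ext hu
    have hne : (i : ℕ) ≠ (i' : ℕ) := fun h => hkk (by rw [Fin.ext h])
    obtain ⟨i, hi⟩ := i
    obtain ⟨i', hi'⟩ := i'
    have hP : 1 ≤ Pl q u := by
      unfold Pl
      have : 0 < q := by omega
      exact Nat.one_le_iff_ne_zero.mpr (by positivity)
    have hP' : (1 : ℝ) ≤ (Pl q u : ℝ) := by exact_mod_cast hP
    clear hkk hks hks' hc hty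
    set P : ℝ := (Pl q u : ℝ) with hPd
    set n : ℕ := Ng q m u with hn
    have hn2 : 2 ≤ n := by omega
    have hnb : (n : ℝ) ≤ 2 * (Q * M / P) := by
      have h1 : n = q * m / Pl q u + 1 := rfl
      have h2 : n ≤ 2 * (q * m / Pl q u) := by omega
      have h3 : ((q * m / Pl q u : ℕ) : ℝ) ≤ Q * M / P := by
        have := @Nat.cast_div_le ℝ _ _ _ (q * m) (Pl q u)
        rw [Nat.cast_mul] at this
        exact this
      calc (n : ℝ) ≤ 2 * ((q * m / Pl q u : ℕ) : ℝ) := by exact_mod_cast h2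
        _ ≤ _ := by gcongr
    have hn0 : (0 : ℝ) < n := by
      have : 0 < n := by omega
      exact_mod_cast this
    have hr : ∀ i : ℕ, i < n → (i : ℝ) / (10 * (n : ℝ)) ≤ 1 / 10 := by
      intro i hi
      rw [div_le_div_iff₀ (by positivity) (by norm_num)]
      have : (i : ℝ) ≤ n := by exact_mod_cast hi.le
      linarith
    have h1 := vsep1_sep (p := 1 + P) (r := 1 + ((i : ℕ) : ℝ) / (10 * (n : ℝ)))
      (r' := 1 + ((i' : ℕ) : ℝ) / (10 * (n : ℝ))) (R := 11 / 10) (δ := 1 / (10 * (n : ℝ)))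
      (by linarith) (by positivity) (by positivity) (by linarith [hr i hi])
      (by linarith [hr i' hi'])
      (by
        rw [show 1 + ((i : ℕ) : ℝ) / (10 * (n : ℝ)) - (1 + ((i' : ℕ) : ℝ) / (10 * (n : ℝ))) =
          (((i : ℕ) : ℝ) - ((i' : ℕ) : ℝ)) * (1 / (10 * (n : ℝ))) by ring, abs_mul,
          abs_of_pos (a := 1 / (10 * (n : ℝ))) (by positivity)]
        exact le_mul_of_one_le_left (by positivity) (vsep1_nat hne))
    refine le_trans ?_ h1
    have h2 : 1 / (4 * P) ≤ (1 + P) / ((1 + P) ^ 2 + (11 / 10) ^ 2) := by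
      rw [div_le_div_iff₀ (by positivity) (by positivity)]
      nlinarith
    have h3 : P / (20 * (Q * M)) ≤ 1 / (10 * (n : ℝ)) := by
      rw [div_le_div_iff₀ (by positivity) (by positivity)]
      have h4 : (n : ℝ) * P ≤ 2 * (Q * M) := by
        have h5 : (n : ℝ) * P ≤ 2 * (Q * M / P) * P := by gcongr
        have h6 : 2 * (Q * M / P) * P = 2 * (Q * M) := by
          field_simp
        linarith
      nlinarith
    calc (M * Q ^ 11)⁻¹ ≤ (80 * (Q * M))⁻¹ := by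
          apply inv_anti₀ (by positivity)
          have h7 : (80 : ℝ) ≤ Q ^ 10 := by
            calc (80 : ℝ) ≤ Q := by linarith
              _ = Q ^ 1 := (pow_one _).symm
              _ ≤ Q ^ 10 := pow_le_pow_right₀ hQ1 (by norm_num)
          calc 80 * (Q * M) ≤ Q ^ 10 * (Q * M) := by gcongr
            _ = M * Q ^ 11 := by ring
      _ = P / (20 * (Q * M)) * (1 / (4 * P)) := by
          field_simp
          norm_num
      _ ≤ _ := by gcongr
  · -- v
    have hu : (a : ℕ) = a' := by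
      simp only [vcls] at hc
      omega
    obtain rfl : a = a' := Fin.ext hu
    have hne : (i : ℕ) ≠ (i' : ℕ) := fun h => hkk (by rw [Fin.ext h])
    obtain ⟨i, hi⟩ := i
    obtain ⟨i', hi'⟩ := i'
    have hMv' := hMv a a.2
    clear hkk hks hks' hc hty
    set n : ℕ := Mv q m a with hn
    have hn0 : (0 : ℝ) < n := by
      have : 0 < n := by omega
      exact_mod_cast this
    have hr : ∀ i : ℕ, i < n → 2 * (i : ℝ) / (n : ℝ) ≤ 2 := by
      intro i hi
      rw [div_le_iff₀ (by positivity)]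
      have : (i : ℝ) ≤ n := by exact_mod_cast hi.le
      linarith
    have h1 := vsep1_sep (p := 1 + ((a : ℕ) : ℝ) * Q ^ 10) (r := 1 + 2 * ((i : ℕ) : ℝ) / (n : ℝ))
      (r' := 1 + 2 * ((i' : ℕ) : ℝ) / (n : ℝ)) (R := 3) (δ := 2 / (n : ℝ))
      (by positivity) (by positivity) (by positivity) (by linarith [hr i hi])
      (by linarith [hr i' hi'])
      (by
        rw [show 1 + 2 * ((i : ℕ) : ℝ) / (n : ℝ) - (1 + 2 * ((i' : ℕ) : ℝ) / (n : ℝ)) =
          (((i : ℕ) : ℝ) - ((i' : ℕ) : ℝ)) * (2 / (n : ℝ)) by ring, abs_mul,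
          abs_of_pos (a := 2 / (n : ℝ)) (by positivity)]
        exact le_mul_of_one_le_left (by positivity) (vsep1_nat hne))
    refine le_trans ?_ h1
    have ha2 : ((a : ℕ) : ℝ) ≤ 2 := by
      have : (a : ℕ) ≤ 2 := by have := a.2; omega
      exact_mod_cast this
    have ha0 : (0 : ℝ) ≤ ((a : ℕ) : ℝ) * Q ^ 10 := by positivity
    have ha3 : ((a : ℕ) : ℝ) * Q ^ 10 ≤ 2 * Q ^ 10 := by gcongr
    have h10 : 1 ≤ Q ^ 10 := one_le_pow₀ hQ1
    set p := 1 + ((a : ℕ) : ℝ) * Q ^ 10 with hp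
    have hp1 : 1 ≤ p := by linarith
    have hp2 : p ≤ 3 * Q ^ 10 := by linarith
    have h2 : 1 / (30 * Q ^ 10) ≤ p / (p ^ 2 + 3 ^ 2) := by
      rw [div_le_div_iff₀ (by positivity) (by positivity)]
      nlinarith
    have h3 : 1 / M ≤ 2 / (n : ℝ) := by
      rw [div_le_div_iff₀ (by positivity) (by positivity)]
      linarith [hMv'.2]
    calc (M * Q ^ 11)⁻¹ ≤ (M * (30 * Q ^ 10))⁻¹ := by
          apply inv_anti₀ (by positivity)
          gcongr
          calc 30 * Q ^ 10 ≤ Q * Q ^ 10 := by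
                gcongr
                linarith
            _ = Q ^ 11 := by ring
      _ = 1 / M * (1 / (30 * Q ^ 10)) := by
          field_simp
      _ ≤ _ := by gcongr

end Pool.Agent.Helper72.RA
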